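import Mathlib

/-!
# MP_2cfa8f_nt: `P_n` and `Q_n` are irreducible over `ℚ` for `n = 2 ^ m`

Let `a_k = binom(2k, k) ^ 2` and let `t = 1 / x` for a root `x` of `P_n` in the algebraic closure of
`ℚ_[2]`. Modulo `16` the coefficient `a_k` is `4` if `k` is a power of two and `0` otherwise
(`k ≥ 1`). Hence `t ^ n` has valuation `2` and, with `S = t ^ (n / 2) / 2`,
`(S + 1) ^ 2 + t ^ (n - 1) + ∑_{1 ≤ j ≤ m - 2} t ^ (n - 2 ^ j)` has valuation at least `2`. So
`β = S + 1 + ∑ t ^ (n / 2 - 2 ^ (j - 1))` satisfies `v (β ^ 2) = v (t ^ (n - 1)) = 2 - 2 / n`, and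
`v β = (n - 1) / n` forces the degree of `ℚ_[2](x)` to be a multiple of `n`.

For `Q_n`, `m ≥ 3`, let `b_k = binom(2k, k) ^ 2 / (k + 1)`. Here `b_1 = 2`, `4 ∣ b_k` for `k ≥ 2`,
`8 ∣ b_k` for `n / 2 < k < n` and `b_n = 4` modulo `8`. Again `t ^ n` has valuation `2` and now
`β = t ^ (n / 2) / 2 + 1` satisfies `v (β ^ 2) = v (t ^ (n - 1) / 2) = 1 - 2 / n`; so
`v β = (n / 2 - 1) / n`, which forces the degree of `ℚ_[2](x)` to be a multiple of `n`.
-/

set_option autoImplicit false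

namespace Pool.Agent.Results.MP_2cfa8f_nt.PowersOfTwo

open Polynomial Finset

theorem cb_double (i : ℕ) : ∃ A B : ℕ, Odd A ∧ Odd B ∧
    A * Nat.centralBinom (2 * i) = B * Nat.centralBinom i := by
  induction i with
  | zero => exact ⟨1, 1, odd_one, odd_one, rfl⟩
  | succ i ih =>
    obtain ⟨A, B, hA, hB, h⟩ := ih
    refine ⟨(2 * i + 1) ^ 2 * A, (4 * i + 3) * (4 * i + 1) * B, ?_, ?_, ?_⟩
    · exact (Odd.pow ⟨i, rfl⟩).mul hA
    · exact (Odd.mul ⟨2 * i + 1, by ring⟩ ⟨2 * i, by ring⟩).mul hB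
    · have h1 := Nat.succ_mul_centralBinom_succ (2 * i + 1)
      have h2 := Nat.succ_mul_centralBinom_succ (2 * i)
      have h3 := Nat.succ_mul_centralBinom_succ i
      have e : 2 * (i + 1) = 2 * i + 1 + 1 := by ring
      rw [e]
      apply Nat.eq_of_mul_eq_mul_left (show 0 < (2 * i + 1 + 1) by omega)
      calc (2 * i + 1 + 1) * ((2 * i + 1) ^ 2 * A * Nat.centralBinom (2 * i + 1 + 1))
          = (2 * i + 1) * A * (2 * i + 1) *
            ((2 * i + 1 + 1) * Nat.centralBinom (2 * i + 1 + 1)) := by ring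
        _ = (2 * i + 1) * A * (2 * (2 * (2 * i + 1) + 1)) *
            ((2 * i + 1) * Nat.centralBinom (2 * i + 1)) := by rw [h1]; ring
        _ = (2 * i + 1) * (2 * (2 * (2 * i + 1) + 1)) * (2 * (2 * (2 * i) + 1)) *
            (A * Nat.centralBinom (2 * i)) := by rw [h2]; ring
        _ = (4 * i + 3) * (4 * i + 1) * B * 2 * (2 * (2 * i + 1) * Nat.centralBinom i) := by
            rw [h]; ring
        _ = (2 * i + 1 + 1) * ((4 * i + 3) * (4 * i + 1) * B * Nat.centralBinom (i + 1)) := by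
            rw [← h3]; ring

theorem cb_pow (i : ℕ) : Nat.centralBinom (2 ^ i) % 4 = 2 := by
  induction i with
  | zero => decide
  | succ i ih =>
    obtain ⟨A, B, ⟨a, rfl⟩, ⟨b, rfl⟩, h⟩ := cb_double (2 ^ i)
    rw [pow_succ, mul_comm]
    obtain ⟨c, hc⟩ : ∃ c, Nat.centralBinom (2 ^ i) = 4 * c + 2 :=
      ⟨Nat.centralBinom (2 ^ i) / 4, by omega⟩
    rw [hc] at h
    obtain ⟨x, hx⟩ : ∃ x, x = Nat.centralBinom (2 * 2 ^ i) := ⟨_, rfl⟩
    rw [← hx] at h ⊢
    have h1 : ((2 * a + 1) * x) % 4 = ((2 * b + 1) * (4 * c + 2)) % 4 := by rw [h]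
    have h2 : ((2 * b + 1) * (4 * c + 2)) % 4 = 2 := by
      have : (2 * b + 1) * (4 * c + 2) = 4 * (2 * b * c + b + c) + 2 := by ring
      omega
    have h3 : x % 4 < 4 := Nat.mod_lt _ (by norm_num)
    obtain ⟨y, hy⟩ : ∃ y, x = 4 * y + x % 4 := ⟨x / 4, by omega⟩
    obtain ⟨r, hr⟩ : ∃ r, r = x % 4 := ⟨_, rfl⟩
    rw [← hr] at h3 hy ⊢
    rw [h2, hy] at h1
    have h4 : (2 * a + 1) * (4 * y + r) = 4 * (2 * a * y + y) + 2 * (a * r) + r := by ring
    rw [h4] at h1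
    interval_cases r <;> omega

theorem cb_four (k : ℕ) (hk : 1 ≤ k) (h : ∀ i, k ≠ 2 ^ i) : 4 ∣ Nat.centralBinom k := by
  induction k using Nat.strong_induction_on with
  | _ k ih =>
    rcases Nat.even_or_odd' k with ⟨i, rfl | rfl⟩
    · obtain ⟨A, B, hA, hB, hAB⟩ := cb_double i
      have h4 : 4 ∣ Nat.centralBinom i := by
        apply ih i (by omega) (by omega)
        intro j hj
        exact h (j + 1) (by rw [hj, pow_succ, mul_comm])
      have h5 : 4 ∣ A * Nat.centralBinom (2 * i) := by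
        rw [hAB]; exact Dvd.dvd.mul_left h4 _
      refine Nat.Coprime.dvd_of_dvd_mul_left ?_ h5
      have : Nat.Coprime 2 A := (Nat.coprime_two_left).2 hA
      exact Nat.Coprime.pow_left 2 this
    · have hi : 1 ≤ i := by
        rcases Nat.eq_zero_or_pos i with h0 | h0
        · exact absurd (by simp [h0]) (h 0)
        · exact h0
      have h1 := Nat.succ_mul_centralBinom_succ (2 * i)
      obtain ⟨c, hc⟩ := Nat.two_dvd_centralBinom_of_one_le (show 0 < 2 * i by omega)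
      rw [hc] at h1
      have h5 : 4 ∣ (2 * i + 1) * Nat.centralBinom (2 * i + 1) := by
        rw [h1]; exact ⟨(2 * (2 * i) + 1) * c, by ring⟩
      refine Nat.Coprime.dvd_of_dvd_mul_left ?_ h5
      have : Nat.Coprime 2 (2 * i + 1) := (Nat.coprime_two_left).2 ⟨i, rfl⟩
      exact Nat.Coprime.pow_left 2 this

open Classical in
/-- The error coefficients. -/
noncomputable def err (k : ℕ) : ℤ :=
  ((Nat.centralBinom k : ℤ)) ^ 2 - (if ∃ i, k = 2 ^ i then 4 else 0)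

theorem err_dvd (k : ℕ) (hk : 1 ≤ k) : (16 : ℤ) ∣ err k := by
  unfold err
  split_ifs with h
  · obtain ⟨i, rfl⟩ := h
    have h1 := cb_pow i
    obtain ⟨c, hc⟩ : ∃ c, Nat.centralBinom (2 ^ i) = 4 * c + 2 :=
      ⟨Nat.centralBinom (2 ^ i) / 4, by omega⟩
    rw [hc]
    refine ⟨(c : ℤ) * (c + 1), ?_⟩
    push_cast
    ring
  · have h1 : 4 ∣ Nat.centralBinom k := cb_four k hk (fun i hi => h ⟨i, hi⟩)
    obtain ⟨c, hc⟩ := h1
    rw [hc]
    refine ⟨(c : ℤ) ^ 2, ?_⟩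
    push_cast
    ring

theorem deg_dvd {n : ℕ} (hn : 1 ≤ n) (β : PadicAlgCl 2) (h : ‖β‖ ^ n * 2 ^ (n - 1) = 1) :
    n ∣ (minpoly ℚ_[2] β).natDegree := by
  have h1 := spectralNorm.spectralNorm_eq_norm_coeff_zero_rpow (K := ℚ_[2]) (L := PadicAlgCl 2) β
  rw [PadicAlgCl.spectralNorm_eq] at h1
  set δ := (minpoly ℚ_[2] β).natDegree with hδ
  have hint : IsIntegral ℚ_[2] β := (PadicAlgCl.isAlgebraic 2).isAlgebraic β |>.isIntegral
  have hδ0 : 0 < δ := minpoly.natDegree_pos hint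
  have h2 : ‖β‖ ^ δ = ‖(minpoly ℚ_[2] β).coeff 0‖ := by
    rw [h1, ← Real.rpow_natCast, ← Real.rpow_mul (norm_nonneg _)]
    have : (1 / (δ : ℝ)) * (δ : ℝ) = 1 := by
      have : (δ : ℝ) ≠ 0 := by positivity
      field_simp
    rw [this, Real.rpow_one]
  have hc0 : (minpoly ℚ_[2] β).coeff 0 ≠ 0 := by
    intro h0
    rw [h0, norm_zero] at h2
    have h3 : ‖β‖ = 0 := pow_eq_zero_iff (by omega) |>.1 h2
    rw [h3, zero_pow (by omega), zero_mul] at h
    exact zero_ne_one h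
  have h3 := Padic.norm_eq_zpow_neg_valuation hc0
  rw [h3] at h2
  set z := ((minpoly ℚ_[2] β).coeff 0).valuation with hz
  have h4 : ‖β‖ ^ n = (2 : ℝ) ^ (-((n - 1 : ℕ) : ℤ)) := by
    rw [zpow_neg, zpow_natCast]
    exact eq_inv_of_mul_eq_one_left h
  have h5 : (2 : ℝ) ^ (-((n - 1 : ℕ) : ℤ) * δ) = (2 : ℝ) ^ (-z * n) := by
    rw [zpow_mul, ← h4, zpow_mul, zpow_natCast, zpow_natCast]
    have : ((2 : ℕ) : ℝ) = 2 := by norm_num
    rw [this] at h2
    rw [← h2, ← pow_mul, ← pow_mul, mul_comm]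
  have h6 : -((n - 1 : ℕ) : ℤ) * δ = -z * n :=
    zpow_right_injective₀ (by norm_num) (by norm_num) h5
  have h7 : (n : ℤ) ∣ ((n - 1 : ℕ) : ℤ) * δ := ⟨z, by linarith⟩
  have h8 : n ∣ (n - 1) * δ := by exact_mod_cast h7
  refine Nat.Coprime.dvd_of_dvd_mul_left ?_ h8
  rw [Nat.coprime_comm]
  have : n = (n - 1) + 1 := by omega
  nth_rw 2 [this]
  simp

theorem norm_int_le (z : ℤ) : ‖(z : PadicAlgCl 2)‖ ≤ 1 := by
  have h : (z : PadicAlgCl 2) = algebraMap ℚ_[2] (PadicAlgCl 2) (z : ℚ_[2]) := by simp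
  rw [h]
  have := PadicAlgCl.norm_extends 2 (z : ℚ_[2])
  rw [this]
  exact Padic.norm_int_le_one z

theorem norm_int_le_16 (z : ℤ) (hz : (16 : ℤ) ∣ z) : ‖(z : PadicAlgCl 2)‖ ≤ 1 / 16 := by
  have h : (z : PadicAlgCl 2) = algebraMap ℚ_[2] (PadicAlgCl 2) (z : ℚ_[2]) := by simp
  rw [h]
  have := PadicAlgCl.norm_extends 2 (z : ℚ_[2])
  rw [this]
  have h2 := (Padic.norm_int_le_pow_iff_dvd (p := 2) z 4).2 (by exact_mod_cast hz)
  refine h2.trans ?_
  norm_num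

theorem norm_two' : ‖(2 : PadicAlgCl 2)‖ = 1 / 2 := by
  have h : (2 : PadicAlgCl 2) = algebraMap ℚ_[2] (PadicAlgCl 2) (2 : ℚ_[2]) :=
    (map_ofNat (algebraMap ℚ_[2] (PadicAlgCl 2)) 2).symm
  rw [h]
  have := PadicAlgCl.norm_extends 2 (2 : ℚ_[2])
  rw [this]
  have h3 := Padic.norm_p (p := 2)
  have h4 : ((2 : ℕ) : ℚ_[2]) = 2 := by norm_num
  rw [h4] at h3
  rw [h3]
  norm_num

theorem norm_four' : ‖(4 : PadicAlgCl 2)‖ = 1 / 4 := by
  have : (4 : PadicAlgCl 2) = 2 * 2 := by norm_num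
  rw [this, norm_mul, norm_two']
  norm_num

theorem sum_sq {q : ℝ} (hq : 0 ≤ q) (hq2 : q * q = 1 / 2) (s : Finset ℕ) (x : ℕ → PadicAlgCl 2)
    (hx : ∀ j ∈ s, ‖x j‖ ≤ q) :
    ‖∑ j ∈ s, x j‖ ≤ q ∧ ‖(∑ j ∈ s, x j) ^ 2 - ∑ j ∈ s, x j ^ 2‖ ≤ 1 / 4 := by
  classical
  refine ⟨IsUltrametricDist.norm_sum_le_of_forall_le_of_nonneg hq hx, ?_⟩
  induction s using Finset.induction_on with
  | empty => simp
  | insert a s ha ih =>
    have hs : ∀ j ∈ s, ‖x j‖ ≤ q := fun j hj => hx j (mem_insert_of_mem hj)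
    have h1 := ih hs
    have h2 : ‖∑ j ∈ s, x j‖ ≤ q := IsUltrametricDist.norm_sum_le_of_forall_le_of_nonneg hq hs
    have h3 := hx a (mem_insert_self a s)
    rw [sum_insert ha, sum_insert ha]
    have e : (x a + ∑ j ∈ s, x j) ^ 2 - (x a ^ 2 + ∑ j ∈ s, x j ^ 2) =
        2 * (x a * ∑ j ∈ s, x j) + ((∑ j ∈ s, x j) ^ 2 - ∑ j ∈ s, x j ^ 2) := by ring
    rw [e]
    refine (IsUltrametricDist.norm_add_le_max _ _).trans (max_le ?_ h1)
    rw [norm_mul, norm_mul, norm_two']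
    have h4 : ‖x a‖ * ‖∑ j ∈ s, x j‖ ≤ q * q := mul_le_mul h3 h2 (norm_nonneg _) hq
    rw [hq2] at h4
    linarith

/-- The sum over the powers of two. -/
theorem sum_pow_two (m : ℕ) (g : ℕ → PadicAlgCl 2) :
    (∑ k ∈ Icc 1 (2 ^ m), ((Nat.centralBinom k : PadicAlgCl 2)) ^ 2 * g k) =
      4 * ∑ j ∈ range (m + 1), g (2 ^ j) + ∑ k ∈ Icc 1 (2 ^ m), ((err k : ℤ) : PadicAlgCl 2) * g k := by
  classical
  have h1 : ∀ k ∈ Icc 1 (2 ^ m), ((Nat.centralBinom k : PadicAlgCl 2)) ^ 2 * g k =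
      (if ∃ i, k = 2 ^ i then 4 * g k else 0) + ((err k : ℤ) : PadicAlgCl 2) * g k := by
    intro k _
    unfold err
    split_ifs with h
    · push_cast; ring
    · push_cast; ring
  rw [sum_congr rfl h1, sum_add_distrib, ← sum_filter, mul_sum]
  congr 1
  have h2 : (Icc 1 (2 ^ m)).filter (fun k => ∃ i, k = 2 ^ i) =
      (range (m + 1)).image (fun j => 2 ^ j) := by
    ext k
    simp only [mem_filter, mem_Icc, mem_image, mem_range]
    constructor
    · rintro ⟨⟨_, h3⟩, i, rfl⟩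
      refine ⟨i, ?_, rfl⟩
      have := (Nat.pow_le_pow_iff_right (by norm_num : 1 < 2)).1 h3
      omega
    · rintro ⟨j, hj, rfl⟩
      exact ⟨⟨Nat.one_le_two_pow, Nat.pow_le_pow_right (by norm_num) (by omega)⟩, j, rfl⟩
  rw [h2, sum_image]
  intro a _ b _ hab
  exact Nat.pow_right_injective le_rfl hab

/-- The key step: a root `t` of the reversed polynomial gives an element of norm
`2 ^ (-(n - 1) / n)` in every field containing `t`. -/
theorem key (r : ℕ) (t : PadicAlgCl 2)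
    (ht : t ^ (2 ^ (r + 2)) + ∑ k ∈ Icc 1 (2 ^ (r + 2)),
      ((Nat.centralBinom k : PadicAlgCl 2)) ^ 2 * t ^ (2 ^ (r + 2) - k) = 0)
    (F : IntermediateField ℚ_[2] (PadicAlgCl 2)) (hF : t ∈ F) :
    ∃ β ∈ F, ‖β‖ ^ (2 ^ (r + 2)) * 2 ^ (2 ^ (r + 2) - 1) = 1 := by
  obtain ⟨N, hN⟩ : ∃ N, N = 2 ^ (r + 1) := ⟨_, rfl⟩
  obtain ⟨M, hM⟩ : ∃ M, M = 2 ^ r := ⟨_, rfl⟩
  have hMpos : 1 ≤ M := by rw [hM]; exact Nat.one_le_two_pow
  have hNM : N = 2 * M := by rw [hN, hM, pow_succ]; ring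
  obtain ⟨n, hn⟩ : ∃ n, n = 2 ^ (r + 2) := ⟨_, rfl⟩
  have hnN : n = 2 * N := by rw [hn, hN, pow_succ]; ring
  -- norm of `t` is at most one
  set τ := ‖t‖ with hτ
  have hτ0 : 0 ≤ τ := norm_nonneg t
  have hτ1 : τ ≤ 1 := by
    by_contra hcon
    push Not at hcon
    have h1 : t ^ n = -∑ k ∈ Icc 1 n, ((Nat.centralBinom k : PadicAlgCl 2)) ^ 2 * t ^ (n - k) := by
      rw [hn]; exact eq_neg_of_add_eq_zero_left ht
    have h2 : ‖∑ k ∈ Icc 1 n, ((Nat.centralBinom k : PadicAlgCl 2)) ^ 2 * t ^ (n - k)‖ ≤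
        τ ^ (n - 1) := by
      apply IsUltrametricDist.norm_sum_le_of_forall_le_of_nonneg (by positivity)
      intro k hk
      rw [mem_Icc] at hk
      rw [norm_mul, norm_pow, norm_pow]
      have h3 : ‖((Nat.centralBinom k : PadicAlgCl 2))‖ ≤ 1 := by
        have := norm_int_le (Nat.centralBinom k : ℤ)
        simpa using this
      have h4 : ‖((Nat.centralBinom k : PadicAlgCl 2))‖ ^ 2 ≤ 1 := pow_le_one₀ (norm_nonneg _) h3
      have h5 : ‖t‖ ^ (n - k) ≤ τ ^ (n - 1) := pow_le_pow_right₀ hcon.le (by omega)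
      calc _ ≤ 1 * τ ^ (n - 1) := mul_le_mul h4 h5 (by positivity) zero_le_one
        _ = _ := one_mul _
    have h6 : τ ^ n ≤ τ ^ (n - 1) := by
      rw [hτ, ← norm_pow, h1, norm_neg]
      exact h2
    have h7 : τ ^ (n - 1) < τ ^ n := pow_lt_pow_right₀ hcon (by omega)
    linarith
  rw [sum_pow_two (r + 2) (fun k => t ^ (2 ^ (r + 2) - k)), ← hn] at ht
  obtain ⟨E0, hE0⟩ : ∃ E0, E0 = ∑ k ∈ Icc 1 n, ((err k : ℤ) : PadicAlgCl 2) * t ^ (n - k) := ⟨_, rfl⟩
  rw [← hE0] at ht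
  have hE0n : ‖E0‖ ≤ 1 / 16 := by
    rw [hE0]
    apply IsUltrametricDist.norm_sum_le_of_forall_le_of_nonneg (by norm_num)
    intro k hk
    rw [mem_Icc] at hk
    rw [norm_mul, norm_pow]
    have h3 := norm_int_le_16 _ (err_dvd k hk.1)
    have h4 : ‖t‖ ^ (n - k) ≤ 1 := pow_le_one₀ hτ0 hτ1
    calc _ ≤ (1 / 16) * 1 := mul_le_mul h3 h4 (by positivity) (by norm_num)
      _ = _ := mul_one _
  -- the norm of `t ^ n`
  have hsplit : ∑ j ∈ range (r + 2 + 1), t ^ (n - 2 ^ j) =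
      1 + ∑ j ∈ range (r + 2), t ^ (n - 2 ^ j) := by
    rw [sum_range_succ, ← hn, Nat.sub_self, pow_zero, add_comm]
  have hpow_lt : ∀ j ∈ range (r + 2), 2 ^ j ≤ N := by
    intro j hj
    rw [hN]
    exact Nat.pow_le_pow_right (by norm_num) (by have := mem_range.1 hj; omega)
  have hDn : ‖∑ j ∈ range (r + 2), t ^ (n - 2 ^ j)‖ ≤ τ := by
    apply IsUltrametricDist.norm_sum_le_of_forall_le_of_nonneg hτ0
    intro j hj
    rw [norm_pow]
    have := hpow_lt j hj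
    exact pow_le_of_le_one hτ0 hτ1 (by omega)
  have hE1 : ‖E0 / 4‖ ≤ 1 / 4 := by
    rw [norm_div, norm_four']
    linarith
  have h4ne : (4 : PadicAlgCl 2) ≠ 0 := by norm_num
  have htn : t ^ n = -(4 * (1 + (∑ j ∈ range (r + 2), t ^ (n - 2 ^ j) + E0 / 4))) := by
    rw [hsplit] at ht
    have : E0 = 4 * (E0 / 4) := by field_simp
    rw [this] at ht
    linear_combination ht
  have hτn' : τ ^ n ≤ 1 / 4 := by
    rw [hτ, ← norm_pow, htn, norm_neg, norm_mul, norm_four']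
    have : ‖1 + (∑ j ∈ range (r + 2), t ^ (n - 2 ^ j) + E0 / 4)‖ ≤ 1 := by
      refine (IsUltrametricDist.norm_add_le_max _ _).trans (max_le (by simp) ?_)
      refine (IsUltrametricDist.norm_add_le_max _ _).trans (max_le (hDn.trans hτ1) ?_)
      linarith
    linarith
  have hτlt : τ < 1 := by
    rcases hτ1.lt_or_eq with h | h
    · exact h
    · rw [h, one_pow] at hτn'
      norm_num at hτn'
  have hτn : τ ^ n = 1 / 4 := by
    rw [hτ, ← norm_pow, htn, norm_neg, norm_mul, norm_four']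
    have h1 : ‖∑ j ∈ range (r + 2), t ^ (n - 2 ^ j) + E0 / 4‖ < 1 := by
      refine (IsUltrametricDist.norm_add_le_max _ _).trans_lt (max_lt (hDn.trans_lt hτlt) ?_)
      linarith
    have h2 : ‖1 + (∑ j ∈ range (r + 2), t ^ (n - 2 ^ j) + E0 / 4)‖ = 1 := by
      rw [IsUltrametricDist.norm_add_eq_max_of_norm_ne_norm (by rw [norm_one]; exact h1.ne'),
        norm_one]
      exact max_eq_left h1.le
    rw [h2, mul_one]
  have hτpos : 0 < τ := by
    rcases hτ0.lt_or_eq with h | h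
    · exact h
    · rw [← h, zero_pow (by omega)] at hτn
      norm_num at hτn
  have hτN : τ ^ N = 1 / 2 := by
    have h1 : (τ ^ N) ^ 2 = (1 / 2) ^ 2 := by
      rw [← pow_mul, mul_comm, ← hnN, hτn]; norm_num
    exact (pow_left_inj₀ (by positivity) (by norm_num) (by norm_num)).1 h1
  obtain ⟨q, hq⟩ : ∃ q, q = τ ^ M := ⟨_, rfl⟩
  have hq0 : 0 ≤ q := by rw [hq]; positivity
  have hq2 : q * q = 1 / 2 := by
    rw [hq, ← pow_add, ← two_mul, ← hNM, hτN]
  -- the elements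
  obtain ⟨S, hS⟩ : ∃ S, S = t ^ N / 2 := ⟨_, rfl⟩
  have h2S : t ^ N = 2 * S := by rw [hS]; field_simp
  have hx : ∀ j ∈ range r, ‖t ^ (N - 2 ^ j)‖ ≤ q := by
    intro j hj
    rw [norm_pow, hq]
    apply pow_le_pow_of_le_one hτ0 hτ1
    have : 2 ^ j ≤ M := by
      rw [hM]; exact Nat.pow_le_pow_right (by norm_num) (by have := mem_range.1 hj; omega)
    omega
  obtain ⟨hB, hBB⟩ := sum_sq hq0 hq2 (range r) (fun j => t ^ (N - 2 ^ j)) hx
  obtain ⟨B, hBdef⟩ : ∃ B, B = ∑ j ∈ range r, t ^ (N - 2 ^ j) := ⟨_, rfl⟩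
  obtain ⟨G, hG⟩ : ∃ G, G = ∑ j ∈ range r, (t ^ (N - 2 ^ j)) ^ 2 := ⟨_, rfl⟩
  simp only [← hBdef, ← hG] at hB hBB
  have hGn : ‖G‖ ≤ 1 / 2 := by
    rw [hG]
    apply IsUltrametricDist.norm_sum_le_of_forall_le_of_nonneg (by norm_num)
    intro j hj
    rw [norm_pow, sq, ← hq2]
    exact mul_le_mul (hx j hj) (hx j hj) (norm_nonneg _) hq0
  have hsum : ∑ j ∈ range (r + 2), t ^ (n - 2 ^ j) = G + t ^ (n - 1) + t ^ N := by
    rw [sum_range_succ, sum_range_succ', pow_zero, hG]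
    have e1 : n - 2 ^ (r + 1) = N := by rw [← hN]; omega
    rw [e1]
    congr 2
    refine sum_congr rfl fun j hj => ?_
    rw [← pow_mul]
    congr 1
    have : 2 ^ j ≤ M := by
      rw [hM]; exact Nat.pow_le_pow_right (by norm_num) (by have := mem_range.1 hj; omega)
    rw [pow_succ]
    omega
  have hrel : (S + 1) ^ 2 = -G - t ^ (n - 1) - E0 / 4 := by
    have h1 : t ^ n = 4 * S ^ 2 := by
      rw [hnN, mul_comm, pow_mul, h2S]; ring
    rw [hsum, h2S, h1] at htn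
    apply mul_left_cancel₀ h4ne
    linear_combination htn
  have htn1 : ‖t ^ (n - 1)‖ = τ ^ (n - 1) := norm_pow _ _
  have hS1 : ‖S + 1‖ ≤ q := by
    have h1 : ‖(S + 1) ^ 2‖ ≤ 1 / 2 := by
      rw [hrel, sub_eq_add_neg, sub_eq_add_neg]
      refine (IsUltrametricDist.norm_add_le_max _ _).trans (max_le ?_ ?_)
      · refine (IsUltrametricDist.norm_add_le_max _ _).trans (max_le ?_ ?_)
        · rw [norm_neg]; exact hGn
        · rw [norm_neg, htn1, ← hτN]
          exact pow_le_pow_of_le_one hτ0 hτ1 (by omega)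
      · rw [norm_neg]; linarith
    rw [norm_pow, ← hq2, ← sq] at h1
    exact (pow_le_pow_iff_left₀ (norm_nonneg _) hq0 (by norm_num)).1 h1
  refine ⟨S + 1 + B, ?_, ?_⟩
  · rw [hS, hBdef]
    refine F.add_mem (F.add_mem (F.div_mem (pow_mem hF _) ?_) F.one_mem) ?_
    · exact ofNat_mem F 2
    · exact F.sum_mem fun j _ => pow_mem hF _
  · have e : (S + 1 + B) ^ 2 = -t ^ (n - 1) +
        (-(E0 / 4) + (2 * ((S + 1) * B) + (B ^ 2 - G))) := by
      linear_combination hrel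
    have h1 : ‖-(E0 / 4) + (2 * ((S + 1) * B) + (B ^ 2 - G))‖ ≤ 1 / 4 := by
      refine (IsUltrametricDist.norm_add_le_max _ _).trans (max_le ?_ ?_)
      · rw [norm_neg]; exact hE1
      · refine (IsUltrametricDist.norm_add_le_max _ _).trans (max_le ?_ hBB)
        rw [norm_mul, norm_mul, norm_two']
        have : ‖S + 1‖ * ‖B‖ ≤ q * q := mul_le_mul hS1 hB (norm_nonneg _) hq0
        rw [hq2] at this
        linarith
    have h2 : 1 / 4 < τ ^ (n - 1) := by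
      rw [← hτn]
      exact pow_lt_pow_right_of_lt_one₀ hτpos hτlt (by omega)
    have h3 : ‖(S + 1 + B) ^ 2‖ = τ ^ (n - 1) := by
      rw [e, IsUltrametricDist.norm_add_eq_max_of_norm_ne_norm, norm_neg, htn1]
      · exact max_eq_left (by linarith)
      · rw [norm_neg, htn1]
        exact (by linarith : ‖-(E0 / 4) + (2 * ((S + 1) * B) + (B ^ 2 - G))‖ < τ ^ (n - 1)).ne'
    rw [norm_pow] at h3
    have h4 : (‖S + 1 + B‖ ^ n) ^ 2 = ((1 / 2) ^ (n - 1)) ^ 2 := by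
      rw [← pow_mul, mul_comm, pow_mul, h3, ← pow_mul, mul_comm, pow_mul, hτn, ← pow_mul,
        mul_comm (n - 1) 2, pow_mul]
      norm_num
    have h5 : ‖S + 1 + B‖ ^ n = (1 / 2) ^ (n - 1) :=
      (pow_left_inj₀ (by positivity) (by positivity) (by norm_num)).1 h4
    rw [← hn, h5, ← mul_pow]
    norm_num

/-- The polynomial `P_n` of the problem. -/
noncomputable def P (n : ℕ) : ℚ[X] :=
  ∑ k ∈ Finset.range (n + 1), C ((Nat.choose (2 * k) k : ℚ) ^ 2) * X ^ k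

theorem P_coeff (n k : ℕ) (hk : k ≤ n) : (P n).coeff k = (Nat.choose (2 * k) k : ℚ) ^ 2 := by
  rw [P, finsetSum_coeff]
  simp only [coeff_C_mul, coeff_X_pow]
  rw [Finset.sum_eq_single k]
  · simp
  · intro b _ hb
    simp [hb.symm]
  · intro h
    exact absurd (mem_range.2 (by omega)) h

theorem P_natDegree (n : ℕ) : (P n).natDegree = n := by
  apply le_antisymm
  · rw [P]
    refine natDegree_sum_le_of_forall_le _ _ fun i hi => ?_
    refine (natDegree_C_mul_X_pow_le _ _).trans ?_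
    have := mem_range.1 hi
    omega
  · apply le_natDegree_of_ne_zero
    rw [P_coeff n n le_rfl]
    have : 0 < Nat.choose (2 * n) n := Nat.choose_pos (by omega)
    positivity

theorem deg_factor (r : ℕ) (f : ℚ[X]) (hf : f ∣ P (2 ^ (r + 2))) (hd : f.natDegree ≠ 0) :
    2 ^ (r + 2) ≤ f.natDegree := by
  obtain ⟨n, hn⟩ : ∃ n, n = 2 ^ (r + 2) := ⟨_, rfl⟩
  have hn0 : 1 ≤ n := by rw [hn]; exact Nat.one_le_two_pow
  set g : ℚ_[2][X] := f.map (Rat.castHom ℚ_[2]) with hg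
  have hgd : g.natDegree = f.natDegree := natDegree_map _
  have hg0 : g ≠ 0 := by
    intro h0
    rw [h0, natDegree_zero] at hgd
    exact hd hgd.symm
  obtain ⟨x, hx⟩ := IsAlgClosed.exists_aeval_eq_zero (PadicAlgCl 2) g (by
    rw [degree_eq_natDegree hg0, hgd]
    exact_mod_cast hd)
  have hPx : ∑ k ∈ range (n + 1), ((Nat.centralBinom k : PadicAlgCl 2)) ^ 2 * x ^ k = 0 := by
    obtain ⟨h, hh⟩ := hf
    have h1 : aeval x ((P (2 ^ (r + 2))).map (Rat.castHom ℚ_[2])) = 0 := by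
      rw [hh, Polynomial.map_mul, map_mul, hx, zero_mul]
    rw [← hn, P, Polynomial.map_sum, map_sum] at h1
    rw [← h1]
    refine sum_congr rfl fun k _ => ?_
    rw [Polynomial.map_mul, Polynomial.map_pow, map_X, map_C, map_mul (aeval x),
      map_pow (aeval x), aeval_X, aeval_C, Nat.centralBinom_eq_two_mul_choose]
    simp
  have hx0 : x ≠ 0 := by
    rintro rfl
    rw [sum_range_succ'] at hPx
    simp at hPx
  have hroot : (x⁻¹) ^ (2 ^ (r + 2)) + ∑ k ∈ Icc 1 (2 ^ (r + 2)),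
      ((Nat.centralBinom k : PadicAlgCl 2)) ^ 2 * (x⁻¹) ^ (2 ^ (r + 2) - k) = 0 := by
    rw [← hn]
    have h1 : (x⁻¹) ^ n * ∑ k ∈ range (n + 1), ((Nat.centralBinom k : PadicAlgCl 2)) ^ 2 * x ^ k
        = 0 := by rw [hPx, mul_zero]
    rw [← h1, mul_sum, range_eq_Ico, sum_eq_sum_Ico_succ_bot (by omega)]
    congr 1
    · simp
    · refine sum_congr (by ext; simp [mem_Icc, mem_Ico]) fun k hk => ?_
      rw [mem_Ico] at hk
      have h2 : (x⁻¹) ^ n = (x⁻¹) ^ (n - k) * (x⁻¹) ^ k := by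
        rw [← pow_add]; congr 1; omega
      have h3 : (x⁻¹) ^ k * x ^ k = 1 := by rw [← mul_pow, inv_mul_cancel₀ hx0, one_pow]
      rw [h2]
      linear_combination (-((Nat.centralBinom k : PadicAlgCl 2)) ^ 2 * (x⁻¹) ^ (n - k)) * h3
  have hxint : IsIntegral ℚ_[2] x := (PadicAlgCl.isAlgebraic 2).isAlgebraic x |>.isIntegral
  obtain ⟨β, hβ, hβn⟩ := key r x⁻¹ hroot (IntermediateField.adjoin ℚ_[2] {x})
    ((IntermediateField.adjoin ℚ_[2] {x}).inv_mem (IntermediateField.mem_adjoin_simple_self _ x))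
  rw [← hn] at hβn ⊢
  have h1 := deg_dvd hn0 β hβn
  have hβint : IsIntegral ℚ_[2] β := (PadicAlgCl.isAlgebraic 2).isAlgebraic β |>.isIntegral
  have h2 : n ≤ (minpoly ℚ_[2] β).natDegree := Nat.le_of_dvd (minpoly.natDegree_pos hβint) h1
  have : FiniteDimensional ℚ_[2] (IntermediateField.adjoin ℚ_[2] {x}) :=
    IntermediateField.adjoin.finiteDimensional hxint
  have h3 : (minpoly ℚ_[2] β).natDegree ≤
      Module.finrank ℚ_[2] (IntermediateField.adjoin ℚ_[2] {x}) := by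
    have h4 := minpoly.natDegree_le (A := ℚ_[2])
      (⟨β, hβ⟩ : IntermediateField.adjoin ℚ_[2] {x})
    rwa [IntermediateField.minpoly_eq] at h4
  have h5 : Module.finrank ℚ_[2] (IntermediateField.adjoin ℚ_[2] {x}) =
      (minpoly ℚ_[2] x).natDegree := IntermediateField.adjoin.finrank hxint
  have h6 : (minpoly ℚ_[2] x).natDegree ≤ g.natDegree :=
    natDegree_le_of_dvd (minpoly.dvd _ _ hx) hg0
  omega

/-- For `n = 2 ^ m` the polynomial `P_n` is irreducible over the rationals. -/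
theorem P_irreducible (m : ℕ) : Irreducible (P (2 ^ m)) := by
  have hP0 : ∀ n, P n ≠ 0 := by
    intro n h0
    have := P_coeff n 0 (by omega)
    rw [h0] at this
    simp at this
  rcases m with _ | _ | r
  · apply irreducible_of_degree_eq_one
    rw [degree_eq_natDegree (hP0 _), P_natDegree]
    rfl
  · have hdeg : (P (2 ^ (0 + 1))).natDegree = 2 := by rw [P_natDegree]; rfl
    rw [Polynomial.irreducible_iff_roots_eq_zero_of_degree_le_three (by omega) (by omega)]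
    rw [Multiset.eq_zero_iff_forall_notMem]
    intro x hx
    have h1 := (mem_roots (hP0 _)).1 hx
    have h2 : (P (2 ^ (0 + 1))).eval x = 1 + 4 * x + 36 * x ^ 2 := by
      rw [P]
      simp [sum_range_succ, Nat.choose]
      norm_num
    rw [IsRoot, h2] at h1
    nlinarith [sq_nonneg (18 * x + 1)]
  · refine ⟨?_, ?_⟩
    · intro hu
      have h1 := natDegree_eq_zero_of_isUnit hu
      rw [P_natDegree] at h1
      have : 0 < 2 ^ (r + 1 + 1) := by positivity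
      omega
    · intro a b hab
      by_contra hcon
      push Not at hcon
      have ha0 : a ≠ 0 := by rintro rfl; exact hP0 _ (by rw [hab, zero_mul])
      have hb0 : b ≠ 0 := by rintro rfl; exact hP0 _ (by rw [hab, mul_zero])
      have hnu : ∀ c : ℚ[X], c ≠ 0 → ¬ IsUnit c → c.natDegree ≠ 0 := by
        intro c hc0 hc h0
        apply hc
        rw [isUnit_iff_degree_eq_zero, degree_eq_natDegree hc0, h0]
        rfl
      have h1 := deg_factor r a ⟨b, hab⟩ (hnu a ha0 hcon.1)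
      have h2 := deg_factor r b ⟨a, by rw [hab, mul_comm]⟩ (hnu b hb0 hcon.2)
      have h3 := P_natDegree (2 ^ (r + 1 + 1))
      rw [hab, natDegree_mul ha0 hb0] at h3
      have h4 : 0 < 2 ^ (r + 2) := by positivity
      have h5 : 2 ^ (r + 1 + 1) = 2 ^ (r + 2) := rfl
      rw [h5] at h3
      linarith

/-- The polynomial `Q_n` of the problem. -/
noncomputable def Q (n : ℕ) : ℚ[X] :=
  ∑ k ∈ Finset.range (n + 1), C ((Nat.choose (2 * k) k : ℚ) ^ 2 / (k + 1)) * X ^ k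

namespace QPart

/-- The coefficient `binom(2k, k) ^ 2 / (k + 1)`. -/
def bq (k : ℕ) : ℕ := Nat.centralBinom k ^ 2 / (k + 1)

theorem bq_mul (k : ℕ) : (k + 1) * bq k = Nat.centralBinom k ^ 2 := by
  unfold bq
  rw [Nat.mul_div_cancel']
  exact Dvd.dvd.trans (Nat.succ_dvd_centralBinom k) (dvd_pow_self _ (by norm_num))

theorem bq_odd (i : ℕ) : ∃ A B : ℕ, Odd A ∧ Odd B ∧ A * bq (2 * i + 1) = 2 * B * bq i := by
  obtain ⟨A, B, hA, hB, h⟩ := cb_double i
  have h1 := Nat.succ_mul_centralBinom_succ (2 * i)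
  have h2 := bq_mul (2 * i + 1)
  have h3 := bq_mul i
  refine ⟨(A * (2 * i + 1)) ^ 2, ((4 * i + 1) * B) ^ 2, ?_, ?_, ?_⟩
  · exact (hA.mul ⟨i, rfl⟩).pow
  · exact (Odd.mul ⟨2 * i, by ring⟩ hB).pow
  · apply Nat.eq_of_mul_eq_mul_left (show 0 < 2 * (i + 1) by omega)
    calc 2 * (i + 1) * ((A * (2 * i + 1)) ^ 2 * bq (2 * i + 1))
        = A ^ 2 * (2 * i + 1) ^ 2 * ((2 * i + 1 + 1) * bq (2 * i + 1)) := by ring
      _ = A ^ 2 * ((2 * i + 1) * Nat.centralBinom (2 * i + 1)) ^ 2 := by rw [h2]; ring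
      _ = (2 * (4 * i + 1)) ^ 2 * (A * Nat.centralBinom (2 * i)) ^ 2 := by rw [h1]; ring
      _ = (2 * (4 * i + 1)) ^ 2 * B ^ 2 * (Nat.centralBinom i ^ 2) := by rw [h]; ring
      _ = 2 * (i + 1) * (2 * ((4 * i + 1) * B) ^ 2 * bq i) := by rw [← h3]; ring

theorem cop (j a : ℕ) (ha : Odd a) : Nat.Coprime (2 ^ j) a :=
  Nat.Coprime.pow_left j ((Nat.coprime_two_left).2 ha)

theorem two_dvd_bq (k : ℕ) (hk : 1 ≤ k) : 2 ∣ bq k := by
  rcases Nat.even_or_odd' k with ⟨i, rfl | rfl⟩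
  · have h1 := bq_mul (2 * i)
    obtain ⟨c, hc⟩ := Nat.two_dvd_centralBinom_of_one_le (show 0 < 2 * i by omega)
    refine Nat.Coprime.dvd_of_dvd_mul_left (cop 1 (2 * i + 1) ⟨i, rfl⟩) ?_
    rw [h1, hc]
    exact ⟨2 * c ^ 2, by ring⟩
  · obtain ⟨A, B, hA, hB, h⟩ := bq_odd i
    refine Nat.Coprime.dvd_of_dvd_mul_left (cop 1 A hA) ?_
    rw [h]
    exact ⟨B * bq i, by ring⟩

theorem four_dvd_bq (k : ℕ) (hk : 2 ≤ k) : 2 ^ 2 ∣ bq k := by
  rcases Nat.even_or_odd' k with ⟨i, rfl | rfl⟩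
  · have h1 := bq_mul (2 * i)
    obtain ⟨c, hc⟩ := Nat.two_dvd_centralBinom_of_one_le (show 0 < 2 * i by omega)
    refine Nat.Coprime.dvd_of_dvd_mul_left (cop 2 (2 * i + 1) ⟨i, rfl⟩) ?_
    rw [h1, hc]
    exact ⟨c ^ 2, by ring⟩
  · obtain ⟨A, B, hA, hB, h⟩ := bq_odd i
    obtain ⟨c, hc⟩ := two_dvd_bq i (by omega)
    refine Nat.Coprime.dvd_of_dvd_mul_left (cop 2 A hA) ?_
    rw [h, hc]
    exact ⟨B * c, by ring⟩

theorem eight_dvd_bq (k : ℕ) (hk : 4 ≤ k) (h : ∀ i, k ≠ 2 ^ i) : 2 ^ 3 ∣ bq k := by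
  rcases Nat.even_or_odd' k with ⟨i, rfl | rfl⟩
  · have h1 := bq_mul (2 * i)
    obtain ⟨c, hc⟩ := cb_four (2 * i) (by omega) h
    refine Nat.Coprime.dvd_of_dvd_mul_left (cop 3 (2 * i + 1) ⟨i, rfl⟩) ?_
    rw [h1, hc]
    exact ⟨2 * c ^ 2, by ring⟩
  · obtain ⟨A, B, hA, hB, h⟩ := bq_odd i
    obtain ⟨c, hc⟩ := four_dvd_bq i (by omega)
    refine Nat.Coprime.dvd_of_dvd_mul_left (cop 3 A hA) ?_
    rw [h, hc]
    exact ⟨B * c, by ring⟩

theorem bq_pow (m : ℕ) (hm : 1 ≤ m) : bq (2 ^ m) % 8 = 4 := by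
  have h1 := bq_mul (2 ^ m)
  have h2 := cb_pow m
  obtain ⟨c, hc⟩ : ∃ c, Nat.centralBinom (2 ^ m) = 4 * c + 2 :=
    ⟨Nat.centralBinom (2 ^ m) / 4, by omega⟩
  obtain ⟨e, he⟩ : ∃ e, 2 ^ m = 2 * e := by
    obtain ⟨l, rfl⟩ : ∃ l, m = l + 1 := ⟨m - 1, by omega⟩
    exact ⟨2 ^ l, by rw [pow_succ]; ring⟩
  rw [hc] at h1
  obtain ⟨x, hx⟩ : ∃ x, x = bq (2 ^ m) := ⟨_, rfl⟩
  rw [← hx] at h1 ⊢
  rw [he] at h1
  have h3 : ((2 * e + 1) * x) % 8 = 4 := by
    rw [h1]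
    have : (4 * c + 2) ^ 2 = 8 * (2 * c * c + 2 * c) + 4 := by ring
    omega
  have h4 : x % 8 < 8 := Nat.mod_lt _ (by norm_num)
  obtain ⟨y, hy⟩ : ∃ y, x = 8 * y + x % 8 := ⟨x / 8, by omega⟩
  obtain ⟨r, hr⟩ : ∃ r, r = x % 8 := ⟨_, rfl⟩
  rw [← hr] at h4 hy ⊢
  rw [hy] at h3
  have h5 : (2 * e + 1) * (8 * y + r) = 8 * (2 * e * y + y) + 2 * (e * r) + r := by ring
  rw [h5] at h3
  interval_cases r <;> omega

theorem norm_nat_le (z j : ℕ) (hz : 2 ^ j ∣ z) : ‖(z : PadicAlgCl 2)‖ ≤ (1 / 2) ^ j := by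
  have h : (z : PadicAlgCl 2) = algebraMap ℚ_[2] (PadicAlgCl 2) ((z : ℤ) : ℚ_[2]) := by simp
  rw [h]
  have := PadicAlgCl.norm_extends 2 ((z : ℤ) : ℚ_[2])
  rw [this]
  have h2 := (Padic.norm_int_le_pow_iff_dvd (p := 2) (z : ℤ) j).2 (by exact_mod_cast hz)
  refine h2.trans (le_of_eq ?_)
  rw [zpow_neg, zpow_natCast, one_div, inv_pow]
  norm_num

theorem deg_dvd {n a : ℕ} (hna : Nat.Coprime n a) (hn : 1 ≤ n) (β : PadicAlgCl 2)
    (h : ‖β‖ ^ n * 2 ^ a = 1) : n ∣ (minpoly ℚ_[2] β).natDegree := by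
  have h1 := spectralNorm.spectralNorm_eq_norm_coeff_zero_rpow (K := ℚ_[2]) (L := PadicAlgCl 2) β
  rw [PadicAlgCl.spectralNorm_eq] at h1
  set δ := (minpoly ℚ_[2] β).natDegree with hδ
  have hint : IsIntegral ℚ_[2] β := (PadicAlgCl.isAlgebraic 2).isAlgebraic β |>.isIntegral
  have hδ0 : 0 < δ := minpoly.natDegree_pos hint
  have h2 : ‖β‖ ^ δ = ‖(minpoly ℚ_[2] β).coeff 0‖ := by
    rw [h1, ← Real.rpow_natCast, ← Real.rpow_mul (norm_nonneg _)]
    have : (1 / (δ : ℝ)) * (δ : ℝ) = 1 := by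
      have : (δ : ℝ) ≠ 0 := by positivity
      field_simp
    rw [this, Real.rpow_one]
  have hc0 : (minpoly ℚ_[2] β).coeff 0 ≠ 0 := by
    intro h0
    rw [h0, norm_zero] at h2
    have h3 : ‖β‖ = 0 := pow_eq_zero_iff (by omega) |>.1 h2
    rw [h3, zero_pow (by omega), zero_mul] at h
    exact zero_ne_one h
  have h3 := Padic.norm_eq_zpow_neg_valuation hc0
  rw [h3] at h2
  set z := ((minpoly ℚ_[2] β).coeff 0).valuation with hz
  have h4 : ‖β‖ ^ n = (2 : ℝ) ^ (-(a : ℤ)) := by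
    rw [zpow_neg, zpow_natCast]
    exact eq_inv_of_mul_eq_one_left h
  have h5 : (2 : ℝ) ^ (-(a : ℤ) * δ) = (2 : ℝ) ^ (-z * n) := by
    rw [zpow_mul, ← h4, zpow_mul, zpow_natCast, zpow_natCast]
    have : ((2 : ℕ) : ℝ) = 2 := by norm_num
    rw [this] at h2
    rw [← h2, ← pow_mul, ← pow_mul, mul_comm]
  have h6 : -(a : ℤ) * δ = -z * n :=
    zpow_right_injective₀ (by norm_num) (by norm_num) h5
  have h7 : (n : ℤ) ∣ (a : ℤ) * δ := ⟨z, by linarith⟩
  have h8 : n ∣ a * δ := by exact_mod_cast h7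
  exact Nat.Coprime.dvd_of_dvd_mul_left hna h8

/-- The key step: a root `t` of the reversed polynomial gives an element of norm
`2 ^ (-(n / 2 - 1) / n)` in every field containing `t`. -/
theorem key (n N : ℕ) (hnN : n = 2 * N) (hN : 4 ≤ N)
    (hbn : bq n % 8 = 4) (hb8 : ∀ k, N < k → k < n → 2 ^ 3 ∣ bq k) (t : PadicAlgCl 2)
    (ht : t ^ n + 2 * t ^ (n - 1) + ∑ k ∈ Ico 2 n, (bq k : PadicAlgCl 2) * t ^ (n - k) +
      (bq n : PadicAlgCl 2) = 0)
    (F : IntermediateField ℚ_[2] (PadicAlgCl 2)) (hF : t ∈ F) :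
    ∃ β ∈ F, ‖β‖ ^ n * 2 ^ (N - 1) = 1 := by
  obtain ⟨G, hG⟩ : ∃ G, G = ∑ k ∈ Ico 2 n, (bq k : PadicAlgCl 2) * t ^ (n - k) := ⟨_, rfl⟩
  rw [← hG] at ht
  set τ := ‖t‖ with hτ
  have hτ0 : 0 ≤ τ := norm_nonneg t
  have h4ne : (4 : PadicAlgCl 2) ≠ 0 := by norm_num
  have htn : t ^ n = -((2 * t ^ (n - 1) + G) + (bq n : PadicAlgCl 2)) := by
    linear_combination ht
  have hbk : ∀ k, ‖(bq k : PadicAlgCl 2)‖ ≤ 1 := by
    intro k
    have := norm_int_le (bq k : ℤ)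
    simpa using this
  have h2t : ‖2 * t ^ (n - 1)‖ = 1 / 2 * τ ^ (n - 1) := by
    rw [norm_mul, norm_two', norm_pow]
  have hbn4 : ‖(bq n : PadicAlgCl 2)‖ ≤ 1 / 4 := by
    have := norm_nat_le (bq n) 2 (four_dvd_bq n (by omega))
    norm_num at this ⊢
    exact this
  have hτ1 : τ ≤ 1 := by
    by_contra hcon
    push Not at hcon
    have hGn : ‖G‖ ≤ τ ^ (n - 1) := by
      rw [hG]
      apply IsUltrametricDist.norm_sum_le_of_forall_le_of_nonneg (by positivity)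
      intro k hk
      rw [mem_Ico] at hk
      rw [norm_mul, norm_pow]
      calc _ ≤ 1 * τ ^ (n - 1) :=
            mul_le_mul (hbk k) (pow_le_pow_right₀ hcon.le (by omega)) (by positivity) zero_le_one
        _ = _ := one_mul _
    have h6 : τ ^ n ≤ τ ^ (n - 1) := by
      rw [hτ, ← norm_pow, htn, norm_neg]
      refine (IsUltrametricDist.norm_add_le_max _ _).trans (max_le ?_ ?_)
      · refine (IsUltrametricDist.norm_add_le_max _ _).trans (max_le ?_ hGn)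
        rw [h2t]
        have : 0 ≤ τ ^ (n - 1) := by positivity
        linarith
      · exact (hbk n).trans (one_le_pow₀ hcon.le)
    have h7 : τ ^ (n - 1) < τ ^ n := pow_lt_pow_right₀ hcon (by omega)
    linarith
  have hGτ : ‖G‖ ≤ 1 / 4 * τ := by
    rw [hG]
    apply IsUltrametricDist.norm_sum_le_of_forall_le_of_nonneg (by positivity)
    intro k hk
    rw [mem_Ico] at hk
    rw [norm_mul, norm_pow]
    have h1 := norm_nat_le (bq k) 2 (four_dvd_bq k hk.1)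
    have h2 : ‖t‖ ^ (n - k) ≤ τ := pow_le_of_le_one hτ0 hτ1 (by omega)
    calc _ ≤ (1 / 2) ^ 2 * τ := mul_le_mul h1 h2 (by positivity) (by positivity)
      _ = _ := by norm_num
  have hτpow : ∀ j, τ ^ j ≤ 1 := fun j => pow_le_one₀ hτ0 hτ1
  have hτlt : τ < 1 := by
    rcases hτ1.lt_or_eq with h | h
    · exact h
    · exfalso
      have h6 : τ ^ n ≤ 1 / 2 := by
        rw [hτ, ← norm_pow, htn, norm_neg]
        refine (IsUltrametricDist.norm_add_le_max _ _).trans (max_le ?_ (by linarith))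
        refine (IsUltrametricDist.norm_add_le_max _ _).trans (max_le ?_ (by linarith))
        rw [h2t]
        have := hτpow (n - 1)
        linarith
      rw [h, one_pow] at h6
      norm_num at h6
  have hτpos : 0 < τ := by
    rcases hτ0.lt_or_eq with h | h
    · exact h
    · exfalso
      have ht0 : t = 0 := by rw [← norm_eq_zero]; exact h.symm
      have hG0 : G = 0 := by
        rw [hG]
        refine sum_eq_zero fun k hk => ?_
        rw [mem_Ico] at hk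
        rw [ht0, zero_pow (by omega), mul_zero]
      rw [ht0, zero_pow (by omega), zero_pow (by omega), hG0, mul_zero, zero_add, zero_add,
        zero_add] at ht
      have h8 : (bq n : PadicAlgCl 2) = ((bq n : ℕ) : PadicAlgCl 2) := rfl
      rw [h8, Nat.cast_eq_zero] at ht
      rw [ht] at hbn
      norm_num at hbn
  have hτn' : τ ^ n ≤ 1 / 4 := by
    by_contra hcon
    push Not at hcon
    have h6 : τ ^ n ≤ max (1 / 2 * τ ^ (n - 1)) (1 / 4) := by
      rw [hτ, ← norm_pow, htn, norm_neg]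
      refine (IsUltrametricDist.norm_add_le_max _ _).trans (max_le ?_ ?_)
      · refine (IsUltrametricDist.norm_add_le_max _ _).trans (max_le ?_ ?_)
        · rw [h2t]; exact le_max_left _ _
        · refine le_trans ?_ (le_max_right _ _)
          linarith
      · exact hbn4.trans (le_max_right _ _)
    have h7 : τ ^ n ≤ 1 / 2 * τ ^ (n - 1) := by
      rcases le_max_iff.1 h6 with h | h
      · exact h
      · linarith
    have h8 : τ ^ n = τ * τ ^ (n - 1) := by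
      rw [← pow_succ']; congr 1; omega
    rw [h8] at h7
    have h9 : τ ≤ 1 / 2 := le_of_mul_le_mul_right h7 (by positivity)
    have h10 : τ ^ n ≤ τ ^ 2 := pow_le_pow_of_le_one hτ0 hτ1 (by omega)
    nlinarith
  have hbnorm : ‖(bq n : PadicAlgCl 2)‖ = 1 / 4 ∧ ‖((bq n : PadicAlgCl 2) - 4) / 4‖ ≤ 1 / 2 := by
    obtain ⟨w, hw⟩ : ∃ w, bq n = 4 + 2 ^ 3 * w := ⟨bq n / 8, by omega⟩
    have h1 := norm_nat_le (2 ^ 3 * w) 3 (Dvd.intro _ rfl)
    have h2 : (bq n : PadicAlgCl 2) = 4 + ((2 ^ 3 * w : ℕ) : PadicAlgCl 2) := by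
      rw [hw]; push_cast; ring
    have h3 : ((1 : ℝ) / 2) ^ 3 = 1 / 8 := by norm_num
    rw [h3] at h1
    constructor
    · rw [h2, IsUltrametricDist.norm_add_eq_max_of_norm_ne_norm, norm_four']
      · exact max_eq_left (by linarith)
      · rw [norm_four']
        exact (by linarith : ‖((2 ^ 3 * w : ℕ) : PadicAlgCl 2)‖ < 1 / 4).ne'
    · rw [h2, add_sub_cancel_left, norm_div, norm_four']
      linarith
  have hτN' : (τ ^ N) ^ 2 = τ ^ n := by rw [← pow_mul, mul_comm, ← hnN]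
  have hτn : τ ^ n = 1 / 4 := by
    rcases hτn'.lt_or_eq with h | h
    · exfalso
      have h1 : τ ^ N < 1 / 2 := by
        by_contra hcon
        push Not at hcon
        have : (1 / 2 : ℝ) ^ 2 ≤ (τ ^ N) ^ 2 := pow_le_pow_left₀ (by norm_num) hcon 2
        rw [hτN'] at this
        norm_num at this
        linarith
      have h2 : τ ^ (n - 1) ≤ τ ^ N := pow_le_pow_of_le_one hτ0 hτ1 (by omega)
      have h3 : (bq n : PadicAlgCl 2) = -((t ^ n + 2 * t ^ (n - 1)) + G) := by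
        linear_combination ht
      have h4 : ‖(bq n : PadicAlgCl 2)‖ < 1 / 4 := by
        rw [h3, norm_neg]
        refine (IsUltrametricDist.norm_add_le_max _ _).trans_lt (max_lt ?_ (by linarith))
        refine (IsUltrametricDist.norm_add_le_max _ _).trans_lt (max_lt ?_ ?_)
        · rw [norm_pow]; exact h
        · rw [h2t]; linarith
      rw [hbnorm.1] at h4
      exact lt_irrefl _ h4
    · exact h
  have hτN : τ ^ N = 1 / 2 := by
    have h1 : (τ ^ N) ^ 2 = (1 / 2) ^ 2 := by rw [hτN', hτn]; norm_num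
    exact (pow_left_inj₀ (by positivity) (by norm_num) (by norm_num)).1 h1
  have hG8 : ‖G‖ ≤ 1 / 8 := by
    rw [hG]
    apply IsUltrametricDist.norm_sum_le_of_forall_le_of_nonneg (by norm_num)
    intro k hk
    rw [mem_Ico] at hk
    rw [norm_mul, norm_pow]
    rcases le_or_gt k N with hkN | hkN
    · have h1 := norm_nat_le (bq k) 2 (four_dvd_bq k hk.1)
      have h2 : ‖t‖ ^ (n - k) ≤ 1 / 2 := by
        rw [← hτN]
        exact pow_le_pow_of_le_one hτ0 hτ1 (by omega)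
      calc _ ≤ (1 / 2) ^ 2 * (1 / 2) := mul_le_mul h1 h2 (by positivity) (by positivity)
        _ = _ := by norm_num
    · have h1 := norm_nat_le (bq k) 3 (hb8 k hkN hk.2)
      calc _ ≤ (1 / 2) ^ 3 * 1 := mul_le_mul h1 (hτpow _) (by positivity) (by positivity)
        _ = _ := by norm_num
  obtain ⟨S, hS⟩ : ∃ S, S = t ^ N / 2 := ⟨_, rfl⟩
  have h2S : t ^ N = 2 * S := by rw [hS]; field_simp
  have h2Sn : ‖2 * S‖ = 1 / 2 := by rw [← h2S, norm_pow, ← hτ, hτN]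
  refine ⟨S + 1, ?_, ?_⟩
  · rw [hS]
    refine F.add_mem (F.div_mem (pow_mem hF _) ?_) F.one_mem
    exact ofNat_mem F 2
  · have hrel : (S + 1) ^ 2 =
        -(t ^ (n - 1) / 2) + (2 * S + (-(G / 4) + -(((bq n : PadicAlgCl 2) - 4) / 4))) := by
      have h1 : t ^ n = 4 * S ^ 2 := by
        rw [hnN, mul_comm, pow_mul, h2S]; ring
      rw [h1] at ht
      apply mul_left_cancel₀ h4ne
      linear_combination ht
    have h1 : ‖2 * S + (-(G / 4) + -(((bq n : PadicAlgCl 2) - 4) / 4))‖ ≤ 1 / 2 := by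
      refine (IsUltrametricDist.norm_add_le_max _ _).trans (max_le h2Sn.le ?_)
      refine (IsUltrametricDist.norm_add_le_max _ _).trans (max_le ?_ ?_)
      · rw [norm_neg, norm_div, norm_four']; linarith
      · rw [norm_neg]; exact hbnorm.2
    have h2 : 1 / 4 < τ ^ (n - 1) := by
      rw [← hτn]
      exact pow_lt_pow_right_of_lt_one₀ hτpos hτlt (by omega)
    have h3 : ‖-(t ^ (n - 1) / 2)‖ = 2 * τ ^ (n - 1) := by
      rw [norm_neg, norm_div, norm_two', norm_pow]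
      ring
    have h4 : ‖(S + 1) ^ 2‖ = 2 * τ ^ (n - 1) := by
      rw [hrel, IsUltrametricDist.norm_add_eq_max_of_norm_ne_norm, h3]
      · exact max_eq_left (by linarith)
      · rw [h3]
        exact (by linarith : ‖2 * S + (-(G / 4) + -(((bq n : PadicAlgCl 2) - 4) / 4))‖ <
          2 * τ ^ (n - 1)).ne'
    rw [norm_pow] at h4
    have h5 : (‖S + 1‖ ^ n) ^ 2 = ((1 / 2) ^ (N - 1)) ^ 2 := by
      rw [← pow_mul, mul_comm, pow_mul, h4, mul_pow, ← pow_mul, mul_comm (n - 1) n, pow_mul, hτn]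
      have e1 : n - 1 = N + (N - 1) := by omega
      rw [e1, pow_add, hnN]
      have e2 : (((1 : ℝ) / 2) ^ (N - 1)) ^ 2 = (1 / 4) ^ (N - 1) := by
        rw [← pow_mul, mul_comm, pow_mul]; norm_num
      have e3 : (2 : ℝ) ^ (2 * N) * (1 / 4) ^ N = 1 := by
        rw [pow_mul, ← mul_pow]; norm_num
      rw [e2, ← mul_assoc, e3, one_mul]
    have h6 : ‖S + 1‖ ^ n = (1 / 2) ^ (N - 1) :=
      (pow_left_inj₀ (by positivity) (by positivity) (by norm_num)).1 h5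
    rw [h6, ← mul_pow]
    norm_num

theorem coeff_eq (k : ℕ) : (Nat.choose (2 * k) k : ℚ) ^ 2 / (k + 1) = (bq k : ℚ) := by
  rw [← Nat.centralBinom_eq_two_mul_choose]
  have h : ((k : ℚ) + 1) * (bq k : ℚ) = (Nat.centralBinom k : ℚ) ^ 2 := by
    exact_mod_cast bq_mul k
  rw [← h]
  have : (k : ℚ) + 1 ≠ 0 := by positivity
  field_simp

theorem Q_coeff (n k : ℕ) (hk : k ≤ n) :
    (Q n).coeff k = (Nat.choose (2 * k) k : ℚ) ^ 2 / (k + 1) := by
  rw [Q, finsetSum_coeff]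
  simp only [coeff_C_mul, coeff_X_pow]
  rw [Finset.sum_eq_single k]
  · simp
  · intro b _ hb
    simp [hb.symm]
  · intro h
    exact absurd (mem_range.2 (by omega)) h

theorem Q_natDegree (n : ℕ) : (Q n).natDegree = n := by
  apply le_antisymm
  · rw [Q]
    refine natDegree_sum_le_of_forall_le _ _ fun i hi => ?_
    refine (natDegree_C_mul_X_pow_le _ _).trans ?_
    have := mem_range.1 hi
    omega
  · apply le_natDegree_of_ne_zero
    rw [Q_coeff n n le_rfl]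
    have : 0 < Nat.choose (2 * n) n := Nat.choose_pos (by omega)
    positivity

theorem deg_factor (r : ℕ) (f : ℚ[X]) (hf : f ∣ Q (2 ^ (r + 3))) (hd : f.natDegree ≠ 0) :
    2 ^ (r + 3) ≤ f.natDegree := by
  obtain ⟨n, hn⟩ : ∃ n, n = 2 ^ (r + 3) := ⟨_, rfl⟩
  obtain ⟨N, hN⟩ : ∃ N, N = 2 ^ (r + 2) := ⟨_, rfl⟩
  have hnN : n = 2 * N := by rw [hn, hN, pow_succ]; ring
  have hN4 : 4 ≤ N := by
    rw [hN, pow_add]
    have : 1 ≤ 2 ^ r := Nat.one_le_two_pow
    omega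
  set g : ℚ_[2][X] := f.map (Rat.castHom ℚ_[2]) with hg
  have hgd : g.natDegree = f.natDegree := natDegree_map _
  have hg0 : g ≠ 0 := by
    intro h0
    rw [h0, natDegree_zero] at hgd
    exact hd hgd.symm
  obtain ⟨x, hx⟩ := IsAlgClosed.exists_aeval_eq_zero (PadicAlgCl 2) g (by
    rw [degree_eq_natDegree hg0, hgd]
    exact_mod_cast hd)
  have hPx : ∑ k ∈ range (n + 1), (bq k : PadicAlgCl 2) * x ^ k = 0 := by
    obtain ⟨h, hh⟩ := hf
    have h1 : aeval x ((Q (2 ^ (r + 3))).map (Rat.castHom ℚ_[2])) = 0 := by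
      rw [hh, Polynomial.map_mul, map_mul, hx, zero_mul]
    rw [← hn, Q, Polynomial.map_sum, map_sum] at h1
    rw [← h1]
    refine sum_congr rfl fun k _ => ?_
    rw [coeff_eq, Polynomial.map_mul, Polynomial.map_pow, map_X, map_C, map_mul (aeval x),
      map_pow (aeval x), aeval_X, aeval_C]
    simp
  have hb0 : bq 0 = 1 := by decide
  have hb1 : bq 1 = 2 := by decide
  have hx0 : x ≠ 0 := by
    rintro rfl
    rw [sum_range_succ'] at hPx
    simp [hb0] at hPx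
  have hroot : (x⁻¹) ^ n + 2 * (x⁻¹) ^ (n - 1) +
      ∑ k ∈ Ico 2 n, (bq k : PadicAlgCl 2) * (x⁻¹) ^ (n - k) + (bq n : PadicAlgCl 2) = 0 := by
    have hk : ∀ k ≤ n, (x⁻¹) ^ n * ((bq k : PadicAlgCl 2) * x ^ k) =
        (bq k : PadicAlgCl 2) * (x⁻¹) ^ (n - k) := by
      intro k hk
      have h2 : (x⁻¹) ^ n = (x⁻¹) ^ (n - k) * (x⁻¹) ^ k := by
        rw [← pow_add]; congr 1; omega
      have h3 : (x⁻¹) ^ k * x ^ k = 1 := by rw [← mul_pow, inv_mul_cancel₀ hx0, one_pow]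
      rw [h2]
      linear_combination ((bq k : PadicAlgCl 2) * (x⁻¹) ^ (n - k)) * h3
    have h1 : ∑ k ∈ range (n + 1), (bq k : PadicAlgCl 2) * (x⁻¹) ^ (n - k) = 0 := by
      rw [← mul_zero ((x⁻¹) ^ n), ← hPx, mul_sum]
      refine sum_congr rfl fun k hk' => ?_
      rw [hk k (by have := mem_range.1 hk'; omega)]
    rw [sum_range_succ, range_eq_Ico, sum_eq_sum_Ico_succ_bot (by omega),
      sum_eq_sum_Ico_succ_bot (by omega), hb0, hb1] at h1
    rw [← h1]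
    simp
    ring
  have hbn : bq n % 8 = 4 := by rw [hn]; exact bq_pow _ (by omega)
  have hb8 : ∀ k, N < k → k < n → 2 ^ 3 ∣ bq k := by
    intro k hk1 hk2
    apply eight_dvd_bq k (by omega)
    rintro i rfl
    rw [hN] at hk1
    rw [hn] at hk2
    have h1 := (Nat.pow_lt_pow_iff_right (by norm_num : 1 < 2)).1 hk1
    have h2 := (Nat.pow_lt_pow_iff_right (by norm_num : 1 < 2)).1 hk2
    omega
  have hxint : IsIntegral ℚ_[2] x := (PadicAlgCl.isAlgebraic 2).isAlgebraic x |>.isIntegral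
  obtain ⟨β, hβ, hβn⟩ := key n N hnN hN4 hbn hb8 x⁻¹ hroot (IntermediateField.adjoin ℚ_[2] {x})
    ((IntermediateField.adjoin ℚ_[2] {x}).inv_mem (IntermediateField.mem_adjoin_simple_self _ x))
  rw [← hn]
  have hcop : Nat.Coprime n (N - 1) := by
    rw [hn]
    apply cop
    refine ⟨2 ^ (r + 1) - 1, ?_⟩
    have h1 : N = 2 * 2 ^ (r + 1) := by rw [hN, pow_succ]; ring
    omega
  have h1 := deg_dvd hcop (by omega) β hβn
  have hβint : IsIntegral ℚ_[2] β := (PadicAlgCl.isAlgebraic 2).isAlgebraic β |>.isIntegral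
  have h2 : n ≤ (minpoly ℚ_[2] β).natDegree := Nat.le_of_dvd (minpoly.natDegree_pos hβint) h1
  have : FiniteDimensional ℚ_[2] (IntermediateField.adjoin ℚ_[2] {x}) :=
    IntermediateField.adjoin.finiteDimensional hxint
  have h3 : (minpoly ℚ_[2] β).natDegree ≤
      Module.finrank ℚ_[2] (IntermediateField.adjoin ℚ_[2] {x}) := by
    have h4 := minpoly.natDegree_le (A := ℚ_[2])
      (⟨β, hβ⟩ : IntermediateField.adjoin ℚ_[2] {x})
    rwa [IntermediateField.minpoly_eq] at h4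
  have h5 : Module.finrank ℚ_[2] (IntermediateField.adjoin ℚ_[2] {x}) =
      (minpoly ℚ_[2] x).natDegree := IntermediateField.adjoin.finrank hxint
  have h6 : (minpoly ℚ_[2] x).natDegree ≤ g.natDegree :=
    natDegree_le_of_dvd (minpoly.dvd _ _ hx) hg0
  omega

/-- For `n = 2 ^ m`, `m ≥ 3`, the polynomial `Q_n` is irreducible over the rationals. -/
theorem Q_irreducible (m : ℕ) (hm : 3 ≤ m) : Irreducible (Q (2 ^ m)) := by
  obtain ⟨r, rfl⟩ : ∃ r, m = r + 3 := ⟨m - 3, by omega⟩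
  have hP0 : ∀ n, Q n ≠ 0 := by
    intro n h0
    have := Q_coeff n 0 (by omega)
    rw [h0] at this
    simp at this
  have h4 : 0 < 2 ^ (r + 3) := by positivity
  refine ⟨?_, ?_⟩
  · intro hu
    have h1 := natDegree_eq_zero_of_isUnit hu
    rw [Q_natDegree] at h1
    omega
  · intro a b hab
    by_contra hcon
    push Not at hcon
    have ha0 : a ≠ 0 := by rintro rfl; exact hP0 _ (by rw [hab, zero_mul])
    have hb0 : b ≠ 0 := by rintro rfl; exact hP0 _ (by rw [hab, mul_zero])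
    have hnu : ∀ c : ℚ[X], c ≠ 0 → ¬ IsUnit c → c.natDegree ≠ 0 := by
      intro c hc0 hc h0
      apply hc
      rw [isUnit_iff_degree_eq_zero, degree_eq_natDegree hc0, h0]
      rfl
    have h1 := deg_factor r a ⟨b, hab⟩ (hnu a ha0 hcon.1)
    have h2 := deg_factor r b ⟨a, by rw [hab, mul_comm]⟩ (hnu b hb0 hcon.2)
    have h3 := Q_natDegree (2 ^ (r + 3))
    rw [hab, natDegree_mul ha0 hb0] at h3
    linarith

end QPart

/-- **Result.** The statement of Q1 for the powers of two: for `n = 2 ^ m` the polynomials `P_n`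
(all `m`) and `Q_n` (`m ≥ 3`) are irreducible over the rationals. -/
theorem result :
    (∀ m : ℕ, Irreducible (P (2 ^ m))) ∧ (∀ m : ℕ, 3 ≤ m → Irreducible (Q (2 ^ m))) :=
  ⟨P_irreducible, QPart.Q_irreducible⟩

end Pool.Agent.Results.MP_2cfa8f_nt.PowersOfTwo
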